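import Pool.Agent.X330.PS.Final

set_option autoImplicit false

/-!
# Every syndetic set of positive integers contains a product set of two infinite sets

Let `S` be a set of positive integers meeting every block `{n, n + 1, …, n + L}`. Then there are
infinite sets `A`, `B` of positive integers with `a * b ∈ S` for all `a ∈ A` and `b ∈ B`.
This answers the question (Q1) in the affirmative.
-/

namespace Pool.Agent.Results.MP_2e62d5_co.SyndeticProductSets

open Pool.Agent.X330.PS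
open scoped Pointwise

/-- **Every syndetic set of positive integers contains `A * B` with `A`, `B` infinite.** -/
theorem result (S : Set ℕ+)
    (hS : ∃ L : ℕ, ∀ n : ℕ+, ∃ s ∈ S, n ≤ s ∧ (s : ℕ) ≤ (n : ℕ) + L) :
    ∃ A B : Set ℕ+, A.Infinite ∧ B.Infinite ∧ A * B ⊆ S := by
  obtain ⟨L, hS⟩ := hS
  obtain ⟨c, A, B, hc, hA, hB, hAB⟩ := main {n : ℕ | ∃ s ∈ S, (s : ℕ) = n} L (by
    intro n hn
    obtain ⟨s, hs, h1, h2⟩ := hS ⟨n, hn⟩
    have h1' : n ≤ (s : ℕ) := h1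
    have h2' : (s : ℕ) ≤ n + L := h2
    exact ⟨(s : ℕ) - n, by omega, s, hs, by omega⟩)
  have hpos : ∀ n : ℕ, n ≠ 0 → 0 < n := fun n hn => Nat.pos_of_ne_zero hn
  have hA' : (A \ {0}).Infinite := hA.sdiff (Set.finite_singleton 0)
  have hB' : (B \ {0}).Infinite := hB.sdiff (Set.finite_singleton 0)
  refine ⟨{x : ℕ+ | ∃ a ∈ A, a ≠ 0 ∧ (x : ℕ) = c * a}, {y : ℕ+ | (y : ℕ) ∈ B}, ?_, ?_, ?_⟩
  · intro hfin
    apply hA'
    have h1 : (A \ {0}) ⊆ (fun a => c * a) ⁻¹'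
        ((fun x : ℕ+ => (x : ℕ)) '' {x : ℕ+ | ∃ a ∈ A, a ≠ 0 ∧ (x : ℕ) = c * a}) := by
      rintro a ⟨ha, ha0⟩
      have ha0' : a ≠ 0 := ha0
      exact ⟨⟨c * a, Nat.mul_pos hc (hpos a ha0')⟩, ⟨a, ha, ha0', rfl⟩, rfl⟩
    refine Set.Finite.subset (Set.Finite.preimage ?_ (hfin.image _)) h1
    intro a _ b _ hab
    exact Nat.eq_of_mul_eq_mul_left hc hab
  · intro hfin
    apply hB'
    refine Set.Finite.subset (hfin.image (fun x : ℕ+ => (x : ℕ))) ?_
    rintro b ⟨hb, hb0⟩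
    have hb0' : b ≠ 0 := hb0
    exact ⟨⟨b, hpos b hb0'⟩, hb, rfl⟩
  · rintro _ ⟨x, ⟨a, ha, _, hx⟩, y, hy, rfl⟩
    obtain ⟨s, hs, hs'⟩ := hAB a ha (y : ℕ) hy
    have h1 : s = x * y := by
      apply PNat.coe_injective
      rw [hs', PNat.mul_coe, hx]
      ring
    show x * y ∈ S
    rw [← h1]
    exact hs

end Pool.Agent.Results.MP_2e62d5_co.SyndeticProductSets
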